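import Mathlib

/-!
# Pairs of vectors with vanishing cup products

For a system of linking numbers `N i j` (`i ≠ j`) the condition on `x, y` is
`x_i ∑_j N_ij y_j = y_i ∑_j N_ij x_j` for all `i`. For three indices it has only dependent solutions
if a determinant does not vanish, for four indices if a discriminant is not a square.
-/

set_option autoImplicit false

namespace Pool.Agent.V5helper57.CP

section
variable {F : Type*} [Field F]

/-- the determinant of three primes -/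
def D3 (n12 n13 n21 n23 n31 n32 : F) : F := n12 * n23 * n31 - n13 * n32 * n21

/-- the discriminant in terms of three products -/
def Kl (a b c : F) : F := a ^ 2 + b ^ 2 + c ^ 2 - 2 * a * b - 2 * b * c - 2 * c * a

/-- the discriminant of four primes -/
def D4 (n12 n13 n14 n21 n23 n24 n31 n32 n34 n41 n42 n43 : F) : F :=
  Kl ((n14 * n23 - n13 * n24) * (n32 * n41 - n31 * n42))
    ((n12 * n34 - n14 * n32) * (n21 * n43 - n23 * n41))
    ((n13 * n42 - n12 * n43) * (n24 * n31 - n21 * n34))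

theorem three {n12 n13 n21 n23 n31 n32 x1 x2 x3 y1 y2 y3 : F}
    (h : D3 n12 n13 n21 n23 n31 n32 ≠ 0)
    (h1 : x1 * (n12 * y2 + n13 * y3) = y1 * (n12 * x2 + n13 * x3))
    (h2 : x2 * (n21 * y1 + n23 * y3) = y2 * (n21 * x1 + n23 * x3))
    (h3 : x3 * (n31 * y1 + n32 * y2) = y3 * (n31 * x1 + n32 * x2)) :
    x1 * y2 = x2 * y1 ∧ x1 * y3 = x3 * y1 ∧ x2 * y3 = x3 * y2 := by
  unfold D3 at h
  refine ⟨?_, ?_, ?_⟩
  · refine mul_left_cancel₀ h ?_
    linear_combination n23 * n31 * h1 + n13 * n32 * h2 + n13 * n23 * h3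
  · refine mul_left_cancel₀ h ?_
    linear_combination -(n21 * n32) * h1 - n12 * n32 * h2 - n12 * n23 * h3
  · refine mul_left_cancel₀ h ?_
    linear_combination n21 * n31 * h1 + n12 * n31 * h2 + n13 * n21 * h3

/-- the polynomial identity -/
theorem ident {a13 a14 a23 a24 p13 p14 p23 p24 s t X Y Z W : F}
    (h1 : p13 * X + p23 * Y = 0) (h2 : p14 * Z + p24 * W = 0) :
    Kl ((a14 * a23 - a13 * a24) * (Y * Z - X * W + s * t * (p13 * p24 - p14 * p23)))
      (-(a13 * p13 * s + a14 * Y) * (a24 * p24 * t - a23 * Z))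
      ((a13 * W + a14 * p14 * t) * (a24 * X - a23 * p23 * s)) =
    ((a14 * p24 * t - a13 * Z) * (a23 * p13 * s + a24 * Y) -
      (a24 * p14 * t + a23 * W) * (a13 * p23 * s - a14 * X)) ^ 2 := by
  unfold Kl
  linear_combination (4 * W * Z * a13 * a14 * a23 ^ 2 * s - 4 * W * Z * a13 ^ 2 * a23 * a24 * s +
      4 * W * a13 ^ 2 * a24 ^ 2 * p24 * s * t - 4 * W * a14 ^ 2 * a23 ^ 2 * p24 * s * t +
      4 * a13 * a14 * a24 ^ 2 * p14 * p24 * s * t ^ 2 -
      4 * a14 ^ 2 * a23 * a24 * p14 * p24 * s * t ^ 2) * h1 +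
    (4 * X * Y * a13 * a14 * a24 ^ 2 * t - 4 * X * Y * a14 ^ 2 * a23 * a24 * t -
      4 * Y * a13 ^ 2 * a24 ^ 2 * p23 * s * t + 4 * Y * a14 ^ 2 * a23 ^ 2 * p23 * s * t +
      4 * a13 * a14 * a23 ^ 2 * p13 * p23 * s ^ 2 * t -
      4 * a13 ^ 2 * a23 * a24 * p13 * p23 * s ^ 2 * t) * h2

theorem sq12 {n12 n13 n14 n21 n23 n24 n31 n32 n34 n41 n42 n43 x1 x2 x3 x4 y1 y2 y3 y4 : F}
    (h1 : x1 * (n12 * y2 + n13 * y3 + n14 * y4) = y1 * (n12 * x2 + n13 * x3 + n14 * x4))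
    (h2 : x2 * (n21 * y1 + n23 * y3 + n24 * y4) = y2 * (n21 * x1 + n23 * x3 + n24 * x4))
    (h3 : x3 * (n31 * y1 + n32 * y2 + n34 * y4) = y3 * (n31 * x1 + n32 * x2 + n34 * x4))
    (h4 : x4 * (n41 * y1 + n42 * y2 + n43 * y3) = y4 * (n41 * x1 + n42 * x2 + n43 * x3))
    (h : x1 * y2 ≠ x2 * y1) :
    IsSquare (D4 n12 n13 n14 n21 n23 n24 n31 n32 n34 n41 n42 n43) := by
  have hd : x1 * y2 - x2 * y1 ≠ 0 := sub_ne_zero.2 h
  obtain ⟨d, hdd⟩ : ∃ d, d = x1 * y2 - x2 * y1 := ⟨_, rfl⟩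
  rw [← hdd] at hd
  obtain ⟨p13, e13⟩ : ∃ p, p * d = x1 * y3 - x3 * y1 := ⟨_, div_mul_cancel₀ _ hd⟩
  obtain ⟨p14, e14⟩ : ∃ p, p * d = x1 * y4 - x4 * y1 := ⟨_, div_mul_cancel₀ _ hd⟩
  obtain ⟨p23, e23⟩ : ∃ p, p * d = x2 * y3 - x3 * y2 := ⟨_, div_mul_cancel₀ _ hd⟩
  obtain ⟨p24, e24⟩ : ∃ p, p * d = x2 * y4 - x4 * y2 := ⟨_, div_mul_cancel₀ _ hd⟩
  have e34 : (p13 * p24 - p14 * p23) * d = x3 * y4 - x4 * y3 := by
    refine mul_left_cancel₀ hd ?_
    have : d * ((p13 * p24 - p14 * p23) * d) = (p13 * d) * (p24 * d) - (p14 * d) * (p23 * d) := by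
      ring
    rw [this, e13, e24, e14, e23, hdd]
    ring
  have g12 : n12 = -(n13 * p13 + n14 * p14) := by
    refine mul_right_cancel₀ hd ?_
    linear_combination h1 + n12 * hdd + n13 * e13 + n14 * e14
  have g21 : n21 = n23 * p23 + n24 * p24 := by
    refine mul_right_cancel₀ hd ?_
    linear_combination -h2 + n21 * hdd - n23 * e23 - n24 * e24
  have r1 : p13 * (n31 - n34 * p24) + p23 * (n32 + n34 * p14) = 0 := by
    refine mul_right_cancel₀ hd ?_
    linear_combination -h3 + n31 * e13 + n32 * e23 - n34 * e34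
  have r2 : p14 * (n41 - n43 * p23) + p24 * (n42 + n43 * p13) = 0 := by
    refine mul_right_cancel₀ hd ?_
    linear_combination -h4 + n41 * e14 + n42 * e24 + n43 * e34
  have key := ident (a13 := n13) (a14 := n14) (a23 := n23) (a24 := n24) (s := n34) (t := n43) r1 r2
  have e : D4 n12 n13 n14 n21 n23 n24 n31 n32 n34 n41 n42 n43 =
      ((n14 * p24 * n43 - n13 * (n41 - n43 * p23)) * (n23 * p13 * n34 + n24 * (n32 + n34 * p14)) -
        (n24 * p14 * n43 + n23 * (n42 + n43 * p13)) * (n13 * p23 * n34 -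
          n14 * (n31 - n34 * p24))) ^ 2 := by
    rw [← key]
    unfold D4
    have b34 : n32 * n41 - n31 * n42 = (n32 + n34 * p14) * (n41 - n43 * p23) -
        (n31 - n34 * p24) * (n42 + n43 * p13) + n34 * n43 * (p13 * p24 - p14 * p23) := by
      linear_combination n43 * r1 - n34 * r2
    rw [b34, g12, g21]
    congr 1 <;> ring
  rw [e]
  exact ⟨_, pow_two _⟩

end

end Pool.Agent.V5helper57.CP
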