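import Pool.Agent.V5helper57.CP.Alg

/-!
# Counting: how often the determinant vanishes and how often the discriminant is a square
-/

set_option autoImplicit false

namespace Pool.Agent.V5helper57.CP

open Finset Classical

section
variable {F : Type} [Field F] [Fintype F]

theorem kl_norm (g r t τ : F) :
    Kl (τ * (r ^ 2 - g * t ^ 2)) (τ * ((1 - r) ^ 2 - g * t ^ 2)) τ = g * (2 * t * τ) ^ 2 := by
  unfold Kl
  ring

/-- the domain of the parametrization -/
abbrev Dom (F : Type) [Field F] : Type := (Fin 3 → Fˣ) × Fˣ × F × Fˣ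

/-- the parametrization of the triples of products with a discriminant which is not a square -/
noncomputable def par (g : F) (d : Dom F) : (Fin 3 → F) × (Fin 3 → F) :=
  (fun i => (d.1 i : F),
    ![(d.2.1 : F) * (d.2.2.1 ^ 2 - g * (d.2.2.2 : F) ^ 2) / (d.1 0 : F),
      (d.2.1 : F) * ((1 - d.2.2.1) ^ 2 - g * (d.2.2.2 : F) ^ 2) / (d.1 1 : F),
      (d.2.1 : F) / (d.1 2 : F)])

theorem par_good {g : F} (h2 : (2 : F) ≠ 0) (hg : ¬ IsSquare g) (d : Dom F) :
    ¬ IsSquare (Kl ((par g d).1 0 * (par g d).2 0) ((par g d).1 1 * (par g d).2 1)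
      ((par g d).1 2 * (par g d).2 2)) := by
  have e0 : (par g d).1 0 * (par g d).2 0 = (d.2.1 : F) * (d.2.2.1 ^ 2 - g * (d.2.2.2 : F) ^ 2) :=
    mul_div_cancel₀ _ (d.1 0).ne_zero
  have e1 : (par g d).1 1 * (par g d).2 1 =
      (d.2.1 : F) * ((1 - d.2.2.1) ^ 2 - g * (d.2.2.2 : F) ^ 2) :=
    mul_div_cancel₀ _ (d.1 1).ne_zero
  have e2 : (par g d).1 2 * (par g d).2 2 = (d.2.1 : F) := mul_div_cancel₀ _ (d.1 2).ne_zero
  rw [e0, e1, e2, kl_norm]
  have hne : 2 * (d.2.2.2 : F) * (d.2.1 : F) ≠ 0 :=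
    mul_ne_zero (mul_ne_zero h2 d.2.2.2.ne_zero) d.2.1.ne_zero
  rintro ⟨z, hz⟩
  apply hg
  refine ⟨z / (2 * (d.2.2.2 : F) * (d.2.1 : F)), ?_⟩
  rw [div_mul_div_comm, ← hz]
  field_simp

theorem par_fiber {g : F} (h2 : (2 : F) ≠ 0) (hg : ¬ IsSquare g) {d d' : Dom F}
    (h : par g d = par g d') : d = d' ∨ d = (d'.1, d'.2.1, d'.2.2.1, -d'.2.2.2) := by
  obtain ⟨u, τ, r, t⟩ := d
  obtain ⟨u', τ', r', t'⟩ := d'
  have hg0 : g ≠ 0 := by
    rintro rfl
    exact hg ⟨0, by rw [mul_zero]⟩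
  have h1 : (fun i => (u i : F)) = fun i => (u' i : F) := congrArg Prod.fst h
  have hu : u = u' := funext fun i => Units.ext (congrFun h1 i)
  subst hu
  have h3 := congrArg Prod.snd h
  have k0 : (τ : F) * (r ^ 2 - g * (t : F) ^ 2) / (u 0 : F) =
      (τ' : F) * (r' ^ 2 - g * (t' : F) ^ 2) / (u 0 : F) := congrFun h3 0
  have k1 : (τ : F) * ((1 - r) ^ 2 - g * (t : F) ^ 2) / (u 1 : F) =
      (τ' : F) * ((1 - r') ^ 2 - g * (t' : F) ^ 2) / (u 1 : F) := congrFun h3 1
  have k2 : (τ : F) / (u 2 : F) = (τ' : F) / (u 2 : F) := congrFun h3 2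
  have hτ : (τ : F) = τ' := (div_left_inj' (u 2).ne_zero).1 k2
  have hτ' : τ = τ' := Units.ext hτ
  subst hτ'
  have l0 : r ^ 2 - g * (t : F) ^ 2 = r' ^ 2 - g * (t' : F) ^ 2 :=
    mul_left_cancel₀ τ.ne_zero ((div_left_inj' (u 0).ne_zero).1 k0)
  have l1 : (1 - r) ^ 2 - g * (t : F) ^ 2 = (1 - r') ^ 2 - g * (t' : F) ^ 2 :=
    mul_left_cancel₀ τ.ne_zero ((div_left_inj' (u 1).ne_zero).1 k1)
  have hr : r = r' := by
    refine mul_left_cancel₀ h2 ?_
    linear_combination l0 - l1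
  subst hr
  have ht : ((t : F) - t') * (t + t') = 0 := by
    refine mul_left_cancel₀ hg0 ?_
    linear_combination -l0
  rcases mul_eq_zero.1 ht with h4 | h4
  · left
    have : t = t' := Units.ext (sub_eq_zero.1 h4)
    rw [this]
  · right
    have : t = -t' := Units.ext (by rw [Units.val_neg]; exact eq_neg_of_add_eq_zero_left h4)
    rw [this]

theorem card_units' : Fintype.card Fˣ = Fintype.card F - 1 := Fintype.card_units F

/-- the number of the pairs with a discriminant which is not a square -/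
theorem count_kl {g : F} (h2 : (2 : F) ≠ 0) (hg : ¬ IsSquare g) :
    Fintype.card F * (Fintype.card F - 1) ^ 5 ≤
      2 * ((univ : Finset ((Fin 3 → F) × (Fin 3 → F))).filter fun z =>
        ¬ IsSquare (Kl (z.1 0 * z.2 0) (z.1 1 * z.2 1) (z.1 2 * z.2 2))).card := by
  have h1 := Finset.card_le_mul_card_image (f := par g) (univ : Finset (Dom F)) 2 (by
    intro b hb
    obtain ⟨d', -, hd'⟩ := mem_image.1 hb
    have hsub : (univ : Finset (Dom F)).filter (fun d => par g d = b) ⊆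
        {d', (d'.1, d'.2.1, d'.2.2.1, -d'.2.2.2)} := by
      intro d hd
      rw [mem_insert, mem_singleton]
      exact par_fiber h2 hg ((mem_filter.1 hd).2.trans hd'.symm)
    exact (card_le_card hsub).trans card_le_two)
  have h3 : (univ : Finset (Dom F)).card = Fintype.card F * (Fintype.card F - 1) ^ 5 := by
    rw [card_univ, Fintype.card_prod, Fintype.card_prod, Fintype.card_prod, Fintype.card_fun,
      Fintype.card_fin, Fintype.card_units]
    ring
  rw [← h3]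
  refine h1.trans (Nat.mul_le_mul_left 2 (card_le_card ?_))
  intro b hb
  obtain ⟨d, -, rfl⟩ := mem_image.1 hb
  exact mem_filter.2 ⟨mem_univ _, par_good h2 hg d⟩

/-- the change of coordinates -/
def chg (n12 n13 n21 n23 n31 n32 : F) (z : (Fin 3 → F) × (Fin 3 → F)) :
    (Fin 3 → F) × (Fin 3 → F) :=
  (![z.1 0 * n23 - n13 * z.1 1, n12 * z.1 2 - z.1 0 * n32, n13 * z.2 1 - n12 * z.2 2],
    ![n32 * z.2 0 - n31 * z.2 1, n21 * z.2 2 - n23 * z.2 0, z.1 1 * n31 - n21 * z.1 2])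

theorem chg_inj {n12 n13 n21 n23 n31 n32 : F} (h : D3 n12 n13 n21 n23 n31 n32 ≠ 0) :
    Function.Injective (chg n12 n13 n21 n23 n31 n32) := by
  intro z z' hz
  unfold D3 at h
  have h1 := congrArg Prod.fst hz
  have h2 := congrArg Prod.snd hz
  have a0 : z.1 0 * n23 - n13 * z.1 1 = z'.1 0 * n23 - n13 * z'.1 1 := congrFun h1 0
  have a1 : n12 * z.1 2 - z.1 0 * n32 = n12 * z'.1 2 - z'.1 0 * n32 := congrFun h1 1
  have a2 : n13 * z.2 1 - n12 * z.2 2 = n13 * z'.2 1 - n12 * z'.2 2 := congrFun h1 2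
  have b0 : n32 * z.2 0 - n31 * z.2 1 = n32 * z'.2 0 - n31 * z'.2 1 := congrFun h2 0
  have b1 : n21 * z.2 2 - n23 * z.2 0 = n21 * z'.2 2 - n23 * z'.2 0 := congrFun h2 1
  have b2 : z.1 1 * n31 - n21 * z.1 2 = z'.1 1 * n31 - n21 * z'.1 2 := congrFun h2 2
  have c0 : z.1 0 = z'.1 0 := by
    refine mul_left_cancel₀ h ?_
    linear_combination n12 * n31 * a0 + n13 * n21 * a1 + n12 * n13 * b2
  have c1 : z.1 1 = z'.1 1 := by
    refine mul_left_cancel₀ h ?_
    linear_combination n12 * n23 * b2 + n32 * n21 * a0 + n21 * n23 * a1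
  have c2 : z.1 2 = z'.1 2 := by
    refine mul_left_cancel₀ h ?_
    linear_combination n23 * n31 * a1 + n31 * n32 * a0 + n13 * n32 * b2
  have d0 : z.2 0 = z'.2 0 := by
    refine mul_left_cancel₀ h ?_
    linear_combination -(n12 * n31) * b1 - n13 * n21 * b0 - n31 * n21 * a2
  have d1 : z.2 1 = z'.2 1 := by
    refine mul_left_cancel₀ h ?_
    linear_combination -(n12 * n23) * b0 - n32 * n21 * a2 - n12 * n32 * b1
  have d2 : z.2 2 = z'.2 2 := by
    refine mul_left_cancel₀ h ?_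
    linear_combination -(n23 * n31) * a2 - n13 * n32 * b1 - n13 * n23 * b0
  refine Prod.ext (funext fun i => ?_) (funext fun i => ?_)
  · fin_cases i
    · exact c0
    · exact c1
    · exact c2
  · fin_cases i
    · exact d0
    · exact d1
    · exact d2

/-- the number of the extensions of a system with `D3 ≠ 0` whose discriminant is not a square -/
theorem count4 {g : F} (h2 : (2 : F) ≠ 0) (hg : ¬ IsSquare g) {n12 n13 n21 n23 n31 n32 : F}
    (h : D3 n12 n13 n21 n23 n31 n32 ≠ 0) :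
    Fintype.card F * (Fintype.card F - 1) ^ 5 ≤
      2 * ((univ : Finset ((Fin 3 → F) × (Fin 3 → F))).filter fun z =>
        ¬ IsSquare (D4 n12 n13 (z.1 0) n21 n23 (z.1 1) n31 n32 (z.1 2)
          (z.2 0) (z.2 1) (z.2 2))).card := by
  refine (count_kl h2 hg).trans (Nat.mul_le_mul_left 2 ?_)
  have hbij : Function.Bijective (chg n12 n13 n21 n23 n31 n32) :=
    Finite.injective_iff_bijective.1 (chg_inj h)
  refine card_le_card_of_surjOn (chg n12 n13 n21 n23 n31 n32) ?_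
  intro b hb
  obtain ⟨z, rfl⟩ := hbij.2 b
  refine ⟨z, ?_, rfl⟩
  have hb' := (mem_filter.1 hb).2
  refine mem_coe.2 (mem_filter.2 ⟨mem_univ _, fun hs => hb' ?_⟩)
  have e : Kl ((chg n12 n13 n21 n23 n31 n32 z).1 0 * (chg n12 n13 n21 n23 n31 n32 z).2 0)
      ((chg n12 n13 n21 n23 n31 n32 z).1 1 * (chg n12 n13 n21 n23 n31 n32 z).2 1)
      ((chg n12 n13 n21 n23 n31 n32 z).1 2 * (chg n12 n13 n21 n23 n31 n32 z).2 2) =
      D4 n12 n13 (z.1 0) n21 n23 (z.1 1) n31 n32 (z.1 2) (z.2 0) (z.2 1) (z.2 2) := rfl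
  rw [e]
  exact hs

/-- the number of the extensions of a pair to a system with `D3 ≠ 0` -/
theorem count3 {n12 n21 : F} (h : n12 ≠ 0) :
    Fintype.card F ^ 2 * (Fintype.card F - 1) ^ 2 ≤
      ((univ : Finset ((Fin 2 → F) × (Fin 2 → F))).filter fun z =>
        D3 n12 (z.1 0) n21 (z.1 1) (z.2 0) (z.2 1) ≠ 0).card := by
  set f : F × Fˣ × F × Fˣ → (Fin 2 → F) × (Fin 2 → F) := fun d =>
    (![d.1, (d.2.1 : F)], ![((d.2.2.2 : F) + d.1 * d.2.2.1 * n21) / (n12 * (d.2.1 : F)),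
      d.2.2.1]) with hf
  have h3 : (univ : Finset (F × Fˣ × F × Fˣ)).card =
      Fintype.card F ^ 2 * (Fintype.card F - 1) ^ 2 := by
    rw [card_univ, Fintype.card_prod, Fintype.card_prod, Fintype.card_prod, Fintype.card_units]
    ring
  rw [← h3]
  refine card_le_card_of_injOn f ?_ ?_
  · rintro ⟨w0, w1, s1, κ⟩ -
    refine mem_coe.2 (mem_filter.2 ⟨mem_univ _, ?_⟩)
    show D3 n12 w0 n21 (w1 : F) (((κ : F) + w0 * s1 * n21) / (n12 * (w1 : F))) s1 ≠ 0
    unfold D3
    have e : n12 * (w1 : F) * (((κ : F) + w0 * s1 * n21) / (n12 * (w1 : F))) - w0 * s1 * n21 =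
        (κ : F) := by
      rw [mul_div_cancel₀ _ (mul_ne_zero h w1.ne_zero)]
      ring
    rw [e]
    exact κ.ne_zero
  · rintro ⟨w0, w1, s1, κ⟩ - ⟨w0', w1', s1', κ'⟩ - hd
    have k1 := congrArg Prod.fst hd
    have k2 := congrArg Prod.snd hd
    have l0 : w0 = w0' := congrFun k1 0
    have l1 : (w1 : F) = w1' := congrFun k1 1
    have l2 : s1 = s1' := congrFun k2 1
    have l3 : ((κ : F) + w0 * s1 * n21) / (n12 * (w1 : F)) =
        ((κ' : F) + w0' * s1' * n21) / (n12 * (w1' : F)) := congrFun k2 0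
    subst l0 l2
    have l1' : w1 = w1' := Units.ext l1
    subst l1'
    have l4 := (div_left_inj' (mul_ne_zero h w1.ne_zero)).1 l3
    have l5 : κ = κ' := Units.ext (add_right_cancel l4)
    rw [l5]

/-- the number of the pairs with a nonzero first number -/
theorem count2 : Fintype.card F * (Fintype.card F - 1) ≤
    ((univ : Finset ((Fin 1 → F) × (Fin 1 → F))).filter fun z => z.1 0 ≠ 0).card := by
  have h3 : (univ : Finset (F × Fˣ)).card = Fintype.card F * (Fintype.card F - 1) := by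
    rw [card_univ, Fintype.card_prod, Fintype.card_units]
  rw [← h3]
  refine card_le_card_of_injOn (fun d : F × Fˣ => (fun _ => (d.2 : F), fun _ => d.1)) ?_ ?_
  · rintro ⟨a, b⟩ -
    exact mem_coe.2 (mem_filter.2 ⟨mem_univ _, b.ne_zero⟩)
  · rintro ⟨a, b⟩ - ⟨a', b'⟩ - hd
    have k1 : (b : F) = b' := congrFun (congrArg Prod.fst hd) 0
    have k2 : a = a' := congrFun (congrArg Prod.snd hd) 0
    rw [k2, Units.ext k1]

end

end Pool.Agent.V5helper57.CP
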