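import Pool.Agent.Q202.QT.DensN

/-!
# Equidistribution of the linking numbers of a new prime, the prime `p` being treated as the others
-/

set_option autoImplicit false

namespace Pool.Agent.V5helper57.CP

open Finset Filter Topology
open Pool.Agent.W569.TG (lk)
open Pool.Agent.Q202.RT Pool.Agent.Q202.QT

/-- the linking number `χ_j (l)`, for `j = p` the class of `(l - 1) / p` -/
noncomputable def Lk {p : ℕ} (χ : ∀ j : ℕ, (ZMod j)ˣ →* Multiplicative (ZMod p)) (l j : ℕ) : ZMod p :=
  if j = p then lv p l else lk χ l j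

/-- `p`, or a prime congruent to `1` modulo `p` -/
def Adm (p l : ℕ) : Prop := l = p ∨ (l.Prime ∧ p ∣ l - 1)

open Classical in
theorem sum_pairs {α β : Type} [Fintype α] [Fintype β] (G : α → β → Prop) :
    (∑ w : α, ((univ : Finset β).filter fun s => G w s).card) =
      ((univ : Finset (α × β)).filter fun z => G z.1 z.2).card := by
  simp only [Finset.card_filter, Fintype.sum_prod_type]

section
variable {p : ℕ} [hpF : Fact p.Prime]

theorem ne_p {l : ℕ} (hl : l.Prime) (h : p ∣ l - 1) : l ≠ p := hnep hl h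

open Classical in
theorem step (hp2 : p ≠ 2) (χ : ∀ j : ℕ, (ZMod j)ˣ →* Multiplicative (ZMod p)) (hχ : Kr χ) {m : ℕ}
    (P : Fin (m + 1) → ℕ) (h0 : Adm p (P 0)) (hP : ∀ i : Fin m, (P i.succ).Prime ∧ p ∣ P i.succ - 1)
    (hinj : Function.Injective P)
    (G : (Fin (m + 1) → ZMod p) → (Fin (m + 1) → ZMod p) → Prop) (hG0 : ∀ w s, G w s → w ≠ 0)
    (hGsc : ∀ w s (c : ZMod p), c ≠ 0 → G w s → G (fun j => c * w j) s) (δ : ℝ) (hδ : δ ≤ 1)
    (hcount : δ * ((p : ℝ) ^ (m + 1) * (p : ℝ) ^ (m + 1)) ≤
      (((univ : Finset ((Fin (m + 1) → ZMod p) × (Fin (m + 1) → ZMod p))).filter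
        fun z => G z.1 z.2).card : ℝ))
    (ε : ℝ) (hε : 0 < ε) :
    ∀ᶠ x : ℕ in atTop, (δ - ε) * ((P1 p x).card : ℝ) ≤ (((P1 p x).filter fun q => (∀ i, q ≠ P i) ∧
      G (fun i => Lk χ (P i) q) (fun i => Lk χ q (P i))).card : ℝ) := by
  have hp : p.Prime := hpF.out
  have hp0 : (0 : ℝ) < p := by exact_mod_cast hp.pos
  have hcard : ∀ k : ℕ, (Fintype.card (Fin k → ZMod p) : ℝ) = (p : ℝ) ^ k := by
    intro k
    rw [Fintype.card_fun, ZMod.card, Fintype.card_fin]
    push_cast
    rfl
  by_cases h0p : P 0 = p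
  · -- `p` is a member
    have hPc : P = Fin.cons p (fun i => P i.succ) := by
      funext i
      refine Fin.cases ?_ (fun j => ?_) i
      · exact h0p
      · rfl
    have hd := densN (p := p) hp2 χ hχ (fun i : Fin m => P i.succ) (fun i => (hP i).1)
      (fun i => (hP i).2) (fun i j h => Fin.succ_injective _ (hinj h)) G hG0 hGsc δ hδ (by
        rw [le_div_iff₀ (by rw [hcard]; positivity), hcard, Fintype.card_fin, sum_pairs]
        exact hcount) ε hε
    filter_upwards [hd] with x hx
    refine le_trans hx (Nat.cast_le.2 (card_le_card ?_))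
    intro q hq
    obtain ⟨h1, h2, h3⟩ := mem_filter.1 hq
    obtain ⟨-, hqp, hpq⟩ := mem_P1.1 h1
    have hqne : q ≠ p := ne_p hqp hpq
    refine mem_filter.2 ⟨h1, ?_, ?_⟩
    · intro i
      refine Fin.cases ?_ (fun j => ?_) i
      · rw [h0p]
        exact hqne
      · exact h2 j
    · have e1 : (fun i => Lk χ (P i) q) = vec χ (Fin.cons p fun i : Fin m => P i.succ) q := by
        funext i
        unfold Lk vec
        rw [if_neg hqne, ← hPc]
      have e2 : (fun i => Lk χ q (P i)) =
          (Fin.cons (lv p q) fun i : Fin m => lk χ q (P i.succ) : Fin (m + 1) → ZMod p) := by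
        funext i
        refine Fin.cases ?_ (fun j => ?_) i
        · show Lk χ q (P 0) = lv p q
          unfold Lk
          rw [if_pos h0p]
        · show Lk χ q (P j.succ) = lk χ q (P j.succ)
          unfold Lk
          rw [if_neg (ne_p (hP j).1 (hP j).2)]
      rw [e1, e2]
      exact h3
  · -- all members are congruent to `1`
    have hall : ∀ i, (P i).Prime ∧ p ∣ P i - 1 := by
      intro i
      refine Fin.cases ?_ (fun j => ?_) i
      · exact h0.resolve_left h0p
      · exact hP j
    have hd := densN (p := p) hp2 χ hχ P (fun i => (hall i).1) (fun i => (hall i).2) hinj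
      (fun w s => G (fun i => w i.succ) (fun i => s i.succ))
      (fun w s h hw => hG0 _ _ h (by
        funext i
        exact congrFun hw i.succ))
      (fun w s c hc h => hGsc _ _ c hc h) δ hδ (by
        rw [le_div_iff₀ (by rw [hcard]; positivity), hcard, Fintype.card_fin, sum_pairs]
        have hi : p * p * ((univ : Finset ((Fin (m + 1) → ZMod p) × (Fin (m + 1) → ZMod p))).filter
            fun z => G z.1 z.2).card ≤
            ((univ : Finset ((Fin (m + 1 + 1) → ZMod p) × (Fin (m + 1 + 1) → ZMod p))).filter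
              fun z => G (fun i => z.1 i.succ) (fun i => z.2 i.succ)).card := by
          have h1 : (((univ : Finset (ZMod p × ZMod p)) ×ˢ
              ((univ : Finset ((Fin (m + 1) → ZMod p) × (Fin (m + 1) → ZMod p))).filter
              fun z => G z.1 z.2)).card) = p * p *
              ((univ : Finset ((Fin (m + 1) → ZMod p) × (Fin (m + 1) → ZMod p))).filter
              fun z => G z.1 z.2).card := by
            rw [card_product, card_univ, Fintype.card_prod, ZMod.card]
          rw [← h1]
          refine card_le_card_of_injOn (fun d => ((Fin.cons d.1.1 d.2.1 : Fin (m + 2) → ZMod p),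
            (Fin.cons d.1.2 d.2.2 : Fin (m + 2) → ZMod p))) ?_ ?_
          · rintro ⟨a, z⟩ hd
            have hz := (mem_filter.1 (mem_product.1 (mem_coe.1 hd)).2).2
            refine mem_coe.2 (mem_filter.2 ⟨mem_univ _, ?_⟩)
            exact hz
          · rintro ⟨⟨a, b⟩, w, s⟩ - ⟨⟨a', b'⟩, w', s'⟩ - hd
            have k1 := congrArg Prod.fst hd
            have k2 := congrArg Prod.snd hd
            have k1' : (Fin.cons a w : Fin (m + 2) → ZMod p) = Fin.cons a' w' := k1
            have k2' : (Fin.cons b s : Fin (m + 2) → ZMod p) = Fin.cons b' s' := k2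
            obtain ⟨rfl, rfl⟩ := Fin.cons_inj.1 k1'
            obtain ⟨rfl, rfl⟩ := Fin.cons_inj.1 k2'
            rfl
        have hi' : (p : ℝ) * p * (((univ : Finset ((Fin (m + 1) → ZMod p) ×
            (Fin (m + 1) → ZMod p))).filter fun z => G z.1 z.2).card : ℝ) ≤
            (((univ : Finset ((Fin (m + 1 + 1) → ZMod p) × (Fin (m + 1 + 1) → ZMod p))).filter
              fun z => G (fun i => z.1 i.succ) (fun i => z.2 i.succ)).card : ℝ) := by
          exact_mod_cast hi
        refine le_trans ?_ hi'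
        calc δ * ((p : ℝ) ^ (m + 1 + 1) * (p : ℝ) ^ (m + 1 + 1))
            = (p : ℝ) * p * (δ * ((p : ℝ) ^ (m + 1) * (p : ℝ) ^ (m + 1))) := by ring
          _ ≤ _ := mul_le_mul_of_nonneg_left hcount (by positivity)) ε hε
    filter_upwards [hd] with x hx
    refine le_trans hx (Nat.cast_le.2 (card_le_card ?_))
    intro q hq
    obtain ⟨h1, h2, h3⟩ := mem_filter.1 hq
    obtain ⟨-, hqp, hpq⟩ := mem_P1.1 h1
    have hqne : q ≠ p := ne_p hqp hpq
    refine mem_filter.2 ⟨h1, h2, ?_⟩
    have e1 : (fun i => Lk χ (P i) q) =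
        fun i : Fin (m + 1) => vec χ (Fin.cons p P : Fin (m + 2) → ℕ) q i.succ := by
      funext i
      unfold Lk vec
      rw [if_neg hqne]
      rfl
    have e2 : (fun i => Lk χ q (P i)) = fun i : Fin (m + 1) =>
        (Fin.cons (lv p q) fun i : Fin (m + 1) => lk χ q (P i) : Fin (m + 2) → ZMod p) i.succ := by
      funext i
      show Lk χ q (P i) = lk χ q (P i)
      unfold Lk
      rw [if_neg (ne_p (hall i).1 (hall i).2)]
    rw [e1, e2]
    exact h3

end

end Pool.Agent.V5helper57.CP
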