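import Pool.Agent.V5helper57.CP.Cnt

/-!
# Three and four indices; residue fields of odd degree
-/

set_option autoImplicit false

namespace Pool.Agent.V5helper57.CP

open Finset

section
variable {F : Type} [Field F]

/-- two vectors with vanishing cup product are dependent -/
def NIc {ι : Type} [Fintype ι] (N : ι → ι → F) : Prop :=
  ∀ x y : ι → F, (∀ i, x i * ∑ j, N i j * y j = y i * ∑ j, N i j * x j) →
    ∀ i j, x i * y j = x j * y i

theorem nic_three (N : Fin 3 → Fin 3 → F)
    (h : D3 (N 0 1) (N 0 2) (N 1 0) (N 1 2) (N 2 0) (N 2 1) ≠ 0) : NIc N := by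
  intro x y hxy
  have h1 := hxy 0
  have h2 := hxy 1
  have h3 := hxy 2
  rw [Fin.sum_univ_three, Fin.sum_univ_three] at h1 h2 h3
  obtain ⟨g1, g2, g3⟩ := three (x1 := x 0) (x2 := x 1) (x3 := x 2) (y1 := y 0) (y2 := y 1)
    (y3 := y 2) h (by linear_combination h1) (by linear_combination h2)
    (by linear_combination h3)
  intro i j
  fin_cases i <;> fin_cases j
  · rfl
  · exact g1
  · exact g2
  · exact g1.symm
  · rfl
  · exact g3
  · exact g2.symm
  · exact g3.symm
  · rfl

/-- the discriminant of a system with four indices -/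
def D4' (N : Fin 4 → Fin 4 → F) : F :=
  D4 (N 0 1) (N 0 2) (N 0 3) (N 1 0) (N 1 2) (N 1 3) (N 2 0) (N 2 1) (N 2 3) (N 3 0) (N 3 1) (N 3 2)

theorem four_aux (N : Fin 4 → Fin 4 → F) (x y : Fin 4 → F)
    (hxy : ∀ i, x i * ∑ j, N i j * y j = y i * ∑ j, N i j * x j) (a b c d : Fin 4)
    (hsum : ∀ f : Fin 4 → F, ∑ i, f i = f a + f b + f c + f d)
    (hD : D4 (N a b) (N a c) (N a d) (N b a) (N b c) (N b d) (N c a) (N c b) (N c d)
      (N d a) (N d b) (N d c) = D4' N) (h : ¬ IsSquare (D4' N)) : x a * y b = x b * y a := by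
  by_contra hne
  apply h
  rw [← hD]
  have h1 := hxy a
  have h2 := hxy b
  have h3 := hxy c
  have h4 := hxy d
  rw [hsum, hsum] at h1 h2 h3 h4
  exact sq12 (x1 := x a) (x2 := x b) (x3 := x c) (x4 := x d) (y1 := y a) (y2 := y b)
    (y3 := y c) (y4 := y d) (by linear_combination h1) (by linear_combination h2)
    (by linear_combination h3) (by linear_combination h4) hne

theorem nic_four (N : Fin 4 → Fin 4 → F) (h : ¬ IsSquare (D4' N)) : NIc N := by
  intro x y hxy
  have s : ∀ f : Fin 4 → F, ∑ i, f i = f 0 + f 1 + f 2 + f 3 := fun f => Fin.sum_univ_four f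
  have g01 := four_aux N x y hxy 0 1 2 3 s rfl h
  have g02 := four_aux N x y hxy 0 2 1 3 (fun f => by rw [s]; ring)
    (by unfold D4' D4 Kl; ring) h
  have g03 := four_aux N x y hxy 0 3 1 2 (fun f => by rw [s]; ring)
    (by unfold D4' D4 Kl; ring) h
  have g12 := four_aux N x y hxy 1 2 0 3 (fun f => by rw [s]; ring)
    (by unfold D4' D4 Kl; ring) h
  have g13 := four_aux N x y hxy 1 3 0 2 (fun f => by rw [s]; ring)
    (by unfold D4' D4 Kl; ring) h
  have g23 := four_aux N x y hxy 2 3 0 1 (fun f => by rw [s]; ring)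
    (by unfold D4' D4 Kl; ring) h
  intro i j
  fin_cases i <;> fin_cases j
  · rfl
  · exact g01
  · exact g02
  · exact g03
  · exact g01.symm
  · rfl
  · exact g12
  · exact g13
  · exact g02.symm
  · exact g12.symm
  · rfl
  · exact g23
  · exact g03.symm
  · exact g13.symm
  · exact g23.symm
  · rfl

theorem d3_map {E : Type} [Field E] (φ : E →+* F) (a b c d e f : E) :
    D3 (φ a) (φ b) (φ c) (φ d) (φ e) (φ f) = φ (D3 a b c d e f) := by
  unfold D3
  simp only [map_sub, map_mul]

theorem d4_map {E : Type} [Field E] (φ : E →+* F) (N : Fin 4 → Fin 4 → E) :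
    D4' (fun i j => φ (N i j)) = φ (D4' N) := by
  unfold D4' D4 Kl
  simp only [map_sub, map_add, map_mul, map_pow, map_ofNat]

end

theorem geom_parity {p : ℕ} (hp : p % 2 = 1) (k : ℕ) :
    (∑ i ∈ range k, p ^ i) % 2 = k % 2 := by
  induction k with
  | zero => rfl
  | succ k ih =>
    have h : p ^ k % 2 = 1 := by
      simp [Nat.pow_mod, hp]
    rw [sum_range_succ]
    omega

/-- a non-square remains a non-square in extensions of odd degree -/
theorem nonsq_odd {p : ℕ} [hpF : Fact p.Prime] (hp2 : p ≠ 2) {K : Type} [Field K] [CharP K p]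
    {k : ℕ} (hk : Odd k) (hcard : Nat.card K = p ^ k) {a : ZMod p} (ha : ¬ IsSquare a) :
    ¬ IsSquare (ZMod.castHom (dvd_refl p) K a) := by
  have hp : p.Prime := hpF.out
  have hodd : p % 2 = 1 := hp.eq_two_or_odd.resolve_left hp2
  have hfin : Finite K := Nat.finite_of_card_ne_zero (by
    rw [hcard]
    exact pow_ne_zero _ hp.ne_zero)
  have : Fintype K := Fintype.ofFinite K
  have ha0 : a ≠ 0 := by
    rintro rfl
    exact ha ⟨0, by rw [mul_zero]⟩
  have h1 : a ^ (p / 2) = -1 := by
    rcases ZMod.pow_div_two_eq_neg_one_or_one p ha0 with h | h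
    · exact absurd ((ZMod.euler_criterion p ha0).2 h) ha
    · exact h
  rintro ⟨b, hb⟩
  set φ := ZMod.castHom (dvd_refl p) K with hφ
  have hb0 : b ≠ 0 := by
    rintro rfl
    rw [mul_zero, map_eq_zero] at hb
    exact ha0 hb
  set s := ∑ i ∈ range k, p ^ i with hs
  have hsodd : s % 2 = 1 := by
    rw [hs, geom_parity hodd]
    exact Nat.odd_iff.1 hk
  have hgs : (p - 1) * s = p ^ k - 1 := by
    have := Nat.geomSum_eq hp.two_le k
    rw [hs, this, Nat.mul_div_cancel' (Nat.sub_one_dvd_pow_sub_one p k)]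
  have h2 : φ a ^ (p / 2 * s) = -1 := by
    rw [pow_mul, ← map_pow, h1, map_neg, map_one]
    exact Odd.neg_one_pow (Nat.odd_iff.2 hsodd)
  have h3 : φ a ^ (p / 2 * s) = 1 := by
    rw [hb, ← pow_two, ← pow_mul]
    have h4 : 2 * (p / 2 * s) = Fintype.card K - 1 := by
      rw [← Nat.card_eq_fintype_card, hcard, ← hgs, ← mul_assoc]
      congr 1
      omega
    rw [h4]
    exact FiniteField.pow_card_sub_one_eq_one b hb0
  rw [h2] at h3
  have h5 : (2 : K) = 0 := by linear_combination -h3
  have h6 : ((2 : ℕ) : K) = 0 := by exact_mod_cast h5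
  rw [CharP.cast_eq_zero_iff K p] at h6
  exact hp2 ((Nat.prime_dvd_prime_iff_eq hp Nat.prime_two).1 h6)

end Pool.Agent.V5helper57.CP
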